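import Mathlib
import Pool.Agent.Q298.Sol.Law

/-!
# MP_d3a052_pr, Q1: higher moments of random solid angles

For every `k ≥ 2` there is `c_k > 0` with `m(d,k) ∼ c_k / (2^d d)` as `d → ∞`.
-/

set_option autoImplicit false
open MeasureTheory Filter Q298.Sol
open scoped Topology

namespace Pool.Agent.Results.MP_d3a052_pr.MomentAsymptotics

theorem result (k : ℕ) (hk : 2 ≤ k) :
    ∃ c : ℝ, 0 < c ∧
      Tendsto (fun d : ℕ => 2 ^ d * d * ∫ U, solidAngle (pos fun i => (U i : Eu d)) ^ k ∂(iid d d))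
        atTop (𝓝 c) ∧
      Asymptotics.IsEquivalent atTop
        (fun d : ℕ => ∫ U, solidAngle (pos fun i => (U i : Eu d)) ^ k ∂(iid d d))
        (fun d : ℕ => c / (2 ^ d * d)) := by
  obtain ⟨c, hc, h⟩ := main k hk
  refine ⟨c, hc, h, ?_⟩
  have hne : ∀ᶠ d : ℕ in atTop, c / ((2 : ℝ) ^ d * d) ≠ 0 := by
    filter_upwards [eventually_ge_atTop 1] with d hd
    have : (0 : ℝ) < d := by exact_mod_cast hd
    positivity
  rw [Asymptotics.isEquivalent_iff_tendsto_one hne]
  have h2 := h.div_const c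
  rw [div_self hc.ne'] at h2
  apply h2.congr'
  filter_upwards [eventually_ge_atTop 1] with d hd
  have hd' : (0 : ℝ) < d := by exact_mod_cast hd
  show 2 ^ d * d * moment d k / c = moment d k / (c / (2 ^ d * d))
  field_simp

end Pool.Agent.Results.MP_d3a052_pr.MomentAsymptotics
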